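import Pool.Agent.helper14.NR.E8d.PN1

/-!
Generated: certificates.
-/

namespace Pool.Agent.helper14.NR.E8d

open Pool.Agent.helper31.IA (Z)
open Pool.Agent.helper31.IX (Op XOps runX Cov CovD cov_split covD_split)
open Pool.Agent.helper31.IC (TD)
open Pool.Agent.helper63.RG (reloc)
open Pool.Agent.helper63.NF hiding TD
open Pool.Agent.helper14.CF (xE covD_E)
open Pool.Agent.helper14.NR (share)

mutual
theorem A1_c0_t5 : CovD 1 gA1 [(97352417280, 5726797824), (1264438476800, 164926849024), (1374389534720, 1374389534720)] :=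
  covD_E kA1_eq (.n 1 (.n 2 (.n 2 (.n 2 (.l 0) (.l 0)) (.n 2 (.l 0) (.l 0))) (.n 2 (.n 2 (.l 0) (.l 0)) (.n 0 (.l 0) (.l 0)))) (.n 2 (.n 2 (.n 2 (.l 0) (.l 0)) (.n 2 (.l 0) (.l 0))) (.n 2 (.n 0 (.l 0) (.l 0)) (.l 0))))
    [(97352417280, 5726797824), (1264438476800, 164926849024), (1374389534720, 1374389534720)] rfl (by decide +kernel)
theorem A1_c0_t6 : CovD 1 gA1 [(97352417280, 5726797824), (1264438476800, 164926849024), (4123168604160, 1374389534720)] :=
  covD_E kA1_eq (.n 2 (.n 1 (.n 2 (.l 0) (.l 0)) (.n 2 (.l 0) (.l 0))) (.n 2 (.n 0 (.l 0) (.l 0)) (.n 2 (.n 0 (.l 0) (.l 0)) (.l 1))))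
    [(97352417280, 5726797824), (1264438476800, 164926849024), (4123168604160, 1374389534720)] rfl (by decide +kernel)
end

mutual
theorem A1_c0_t8 : CovD 1 gA1 [(97352417280, 5726797824), (1594292174848, 164926849024), (1374389534720, 1374389534720)] :=
  covD_E kA1_eq (.n 2 (.n 2 (.n 2 (.l 0) (.l 0)) (.n 1 (.n 0 (.l 0) (.l 0)) (.l 0))) (.n 1 (.n 2 (.n 0 (.l 0) (.l 0)) (.l 0)) (.n 2 (.l 0) (.l 0))))
    [(97352417280, 5726797824), (1594292174848, 164926849024), (1374389534720, 1374389534720)] rfl (by decide +kernel)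
theorem A1_c0_t9 : CovD 1 gA1 [(97352417280, 5726797824), (1594292174848, 164926849024), (4123168604160, 1374389534720)] :=
  covD_E kA1_eq (.n 0 (.n 2 (.n 2 (.l 0) (.l 0)) (.n 2 (.l 0) (.n 0 (.l 0) (.l 0)))) (.n 2 (.n 2 (.l 0) (.l 0)) (.n 2 (.l 0) (.l 0))))
    [(97352417280, 5726797824), (1594292174848, 164926849024), (4123168604160, 1374389534720)] rfl (by decide +kernel)
end

mutual
theorem A1_c0_t10 : CovD 1 gA1 [(97352417280, 5726797824), (1429365325824, 329853698048), (8246337208320, 2748779069440)] :=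
  covD_E kA1_eq (.n 2 (.n 1 (.n 2 (.l 1) (.l 1)) (.n 2 (.n 0 (.l 1) (.l 1)) (.l 1))) (.n 2 (.l 1) (.l 1)))
    [(97352417280, 5726797824), (1429365325824, 329853698048), (8246337208320, 2748779069440)] rfl (by decide +kernel)
theorem A1_c0_t14 : CovD 1 gA1 [(108806012928, 5726797824), (1181975052288, 82463424512), (2748779069440, 2748779069440)] :=
  covD_E kA1_eq (.n 2 (.n 2 (.n 2 (.n 2 (.l 0) (.l 0)) (.n 2 (.l 0) (.l 0))) (.n 2 (.n 2 (.l 0) (.l 0)) (.n 0 (.l 0) (.l 0)))) (.n 2 (.n 2 (.l 0) (.l 0)) (.n 2 (.l 0) (.l 0))))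
    [(108806012928, 5726797824), (1181975052288, 82463424512), (2748779069440, 2748779069440)] rfl (by decide +kernel)
end

mutual
theorem A1_c0_t15 : CovD 1 gA1 [(108806012928, 5726797824), (1346901901312, 82463424512), (2748779069440, 2748779069440)] :=
  covD_E kA1_eq (.n 2 (.n 2 (.n 2 (.n 2 (.l 0) (.l 0)) (.n 2 (.l 0) (.l 0))) (.n 2 (.n 0 (.l 0) (.l 0)) (.l 0))) (.n 2 (.n 2 (.l 0) (.l 0)) (.n 2 (.l 0) (.l 0))))
    [(108806012928, 5726797824), (1346901901312, 82463424512), (2748779069440, 2748779069440)] rfl (by decide +kernel)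
theorem A1_c0_t16 : CovD 1 gA1 [(108806012928, 5726797824), (1594292174848, 164926849024), (2748779069440, 2748779069440)] :=
  covD_E kA1_eq (.n 2 (.n 2 (.n 2 (.n 2 (.l 0) (.l 0)) (.n 2 (.l 0) (.l 0))) (.n 1 (.n 2 (.l 0) (.l 0)) (.n 2 (.l 0) (.l 0)))) (.n 0 (.n 2 (.n 2 (.l 0) (.l 0)) (.n 1 (.l 0) (.l 0))) (.n 2 (.n 2 (.l 0) (.l 0)) (.n 1 (.l 0) (.l 0)))))
    [(108806012928, 5726797824), (1594292174848, 164926849024), (2748779069440, 2748779069440)] rfl (by decide +kernel)
end

mutual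
theorem A1_c0_t17 : CovD 1 gA1 [(108806012928, 5726797824), (1429365325824, 329853698048), (8246337208320, 2748779069440)] :=
  covD_E kA1_eq (.n 2 (.n 1 (.n 2 (.l 1) (.l 1)) (.n 2 (.l 1) (.l 1))) (.n 2 (.l 1) (.l 1)))
    [(108806012928, 5726797824), (1429365325824, 329853698048), (8246337208320, 2748779069440)] rfl (by decide +kernel)
theorem A1_c0_t22 : CovD 1 gA1 [(125986406400, 11453595648), (1181975052288, 82463424512), (1374389534720, 1374389534720)] :=
  covD_E kA1_eq (.n 2 (.n 2 (.n 2 (.l 0) (.n 0 (.l 0) (.l 0))) (.n 0 (.n 2 (.l 0) (.l 0)) (.n 2 (.l 0) (.l 0)))) (.n 0 (.n 2 (.n 0 (.l 0) (.l 0)) (.l 0)) (.n 2 (.n 0 (.l 0) (.l 0)) (.l 0))))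
    [(125986406400, 11453595648), (1181975052288, 82463424512), (1374389534720, 1374389534720)] rfl (by decide +kernel)
end

mutual
theorem A1_c0_t23 : CovD 1 gA1 [(125986406400, 11453595648), (1181975052288, 82463424512), (4123168604160, 1374389534720)] :=
  covD_E kA1_eq (.n 0 (.n 2 (.n 2 (.l 0) (.l 0)) (.n 0 (.l 0) (.l 0))) (.n 2 (.n 2 (.l 0) (.l 0)) (.n 0 (.l 0) (.l 0))))
    [(125986406400, 11453595648), (1181975052288, 82463424512), (4123168604160, 1374389534720)] rfl (by decide +kernel)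
theorem A1_c0_t24 : CovD 1 gA1 [(125986406400, 11453595648), (1346901901312, 82463424512), (2748779069440, 2748779069440)] :=
  covD_E kA1_eq (.n 2 (.n 2 (.n 2 (.n 2 (.l 0) (.l 0)) (.n 2 (.l 0) (.l 0))) (.n 2 (.n 2 (.l 0) (.l 0)) (.n 0 (.l 0) (.l 0)))) (.n 0 (.n 2 (.n 2 (.l 0) (.l 0)) (.n 0 (.l 0) (.l 0))) (.n 2 (.n 2 (.l 0) (.l 0)) (.n 0 (.l 0) (.l 0)))))
    [(125986406400, 11453595648), (1346901901312, 82463424512), (2748779069440, 2748779069440)] rfl (by decide +kernel)
end

mutual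
theorem A1_c0_t25 : CovD 1 gA1 [(125986406400, 11453595648), (1264438476800, 164926849024), (8246337208320, 2748779069440)] :=
  covD_E kA1_eq (.n 2 (.n 0 (.n 2 (.l 1) (.l 1)) (.n 2 (.l 1) (.l 1))) (.n 2 (.l 1) (.l 1)))
    [(125986406400, 11453595648), (1264438476800, 164926849024), (8246337208320, 2748779069440)] rfl (by decide +kernel)
theorem A1_c0_t28 : CovD 1 gA1 [(120259608576, 5726797824), (1594292174848, 164926849024), (2748779069440, 2748779069440)] :=
  covD_E kA1_eq (.n 1 (.n 2 (.n 2 (.n 2 (.l 0) (.l 0)) (.n 2 (.l 0) (.l 0))) (.n 2 (.n 2 (.l 0) (.l 0)) (.n 0 (.l 0) (.l 0)))) (.n 2 (.n 2 (.n 2 (.l 0) (.l 0)) (.n 2 (.l 0) (.l 0))) (.n 0 (.n 2 (.l 0) (.l 0)) (.n 2 (.l 0) (.l 0)))))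
    [(120259608576, 5726797824), (1594292174848, 164926849024), (2748779069440, 2748779069440)] rfl (by decide +kernel)
end

mutual
theorem A1_c0_t29 : CovD 1 gA1 [(120259608576, 5726797824), (1594292174848, 164926849024), (8246337208320, 2748779069440)] :=
  covD_E kA1_eq (.n 2 (.n 2 (.l 1) (.l 1)) (.l 1))
    [(120259608576, 5726797824), (1594292174848, 164926849024), (8246337208320, 2748779069440)] rfl (by decide +kernel)
theorem A1_c0_t31 : CovD 1 gA1 [(131713204224, 5726797824), (1594292174848, 164926849024), (2748779069440, 2748779069440)] :=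
  covD_E kA1_eq (.n 1 (.n 2 (.n 2 (.n 2 (.l 0) (.l 0)) (.n 2 (.l 0) (.l 0))) (.n 2 (.n 2 (.l 0) (.l 0)) (.n 0 (.l 0) (.l 0)))) (.n 2 (.n 2 (.n 2 (.l 0) (.l 0)) (.n 2 (.l 0) (.l 0))) (.n 0 (.n 2 (.l 0) (.l 0)) (.n 2 (.l 0) (.l 0)))))
    [(131713204224, 5726797824), (1594292174848, 164926849024), (2748779069440, 2748779069440)] rfl (by decide +kernel)
end

mutual
theorem A1_c0_t32 : CovD 1 gA1 [(131713204224, 5726797824), (1594292174848, 164926849024), (8246337208320, 2748779069440)] :=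
  covD_E kA1_eq (.n 2 (.n 2 (.l 1) (.l 1)) (.l 1))
    [(131713204224, 5726797824), (1594292174848, 164926849024), (8246337208320, 2748779069440)] rfl (by decide +kernel)
theorem B1_c0_t3 : CovD 1 gB1 [(103079215104, 11453595648), (1264438476800, 164926849024), (27487895552, 27487895552)] :=
  covD_E kB1_eq (.n 2 (.n 2 (.n 2 (.n 2 (.l 1) (.l 1)) (.n 2 (.l 1) (.l 1))) (.n 2 (.n 2 (.l 1) (.l 1)) (.n 0 (.l 1) (.l 1)))) (.n 0 (.n 2 (.n 2 (.l 1) (.l 1)) (.n 0 (.l 1) (.l 1))) (.n 2 (.n 2 (.l 1) (.l 1)) (.n 0 (.l 1) (.l 1)))))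
    [(103079215104, 11453595648), (1264438476800, 164926849024), (27487895552, 27487895552)] rfl (by decide +kernel)
end

mutual
theorem B1_c0_t5 : CovD 1 gB1 [(97352417280, 5726797824), (1594292174848, 164926849024), (27487895552, 27487895552)] :=
  covD_E kB1_eq (.n 2 (.n 2 (.n 2 (.n 2 (.l 1) (.l 1)) (.n 2 (.l 1) (.l 1))) (.n 2 (.n 2 (.l 1) (.l 1)) (.n 0 (.l 1) (.l 1)))) (.n 2 (.n 2 (.l 1) (.l 1)) (.n 2 (.l 1) (.l 1))))
    [(97352417280, 5726797824), (1594292174848, 164926849024), (27487895552, 27487895552)] rfl (by decide +kernel)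
theorem B1_c0_t6 : CovD 1 gB1 [(108806012928, 5726797824), (1594292174848, 164926849024), (27487895552, 27487895552)] :=
  covD_E kB1_eq (.n 2 (.n 2 (.n 2 (.n 2 (.l 1) (.l 1)) (.n 1 (.l 1) (.l 1))) (.n 2 (.n 0 (.l 1) (.l 1)) (.l 1))) (.n 2 (.n 2 (.l 1) (.l 1)) (.n 0 (.l 1) (.l 1))))
    [(108806012928, 5726797824), (1594292174848, 164926849024), (27487895552, 27487895552)] rfl (by decide +kernel)
end

mutual
theorem B1_c0_t7 : CovD 1 gB1 [(103079215104, 11453595648), (1429365325824, 329853698048), (82463686656, 27487895552)] :=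
  covD_E kB1_eq (.n 0 (.n 2 (.n 1 (.n 2 (.l 1) (.l 1)) (.n 2 (.l 1) (.l 1))) (.n 2 (.n 0 (.l 1) (.l 1)) (.l 1))) (.n 2 (.n 1 (.n 2 (.l 1) (.l 1)) (.n 2 (.l 1) (.l 1))) (.n 2 (.n 0 (.l 1) (.l 1)) (.l 1))))
    [(103079215104, 11453595648), (1429365325824, 329853698048), (82463686656, 27487895552)] rfl (by decide +kernel)
theorem B1_c0_t10 : CovD 1 gB1 [(125986406400, 11453595648), (1264438476800, 164926849024), (27487895552, 27487895552)] :=
  covD_E kB1_eq (.n 2 (.n 1 (.n 2 (.n 2 (.l 1) (.l 1)) (.n 2 (.l 1) (.l 1))) (.n 2 (.n 2 (.l 1) (.l 1)) (.n 2 (.l 1) (.l 1)))) (.n 2 (.n 0 (.n 2 (.l 1) (.l 1)) (.n 2 (.l 1) (.l 1))) (.n 2 (.n 0 (.l 1) (.l 1)) (.l 1))))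
    [(125986406400, 11453595648), (1264438476800, 164926849024), (27487895552, 27487895552)] rfl (by decide +kernel)
end

mutual
theorem B1_c0_t11 : CovD 1 gB1 [(125986406400, 11453595648), (1264438476800, 164926849024), (82463686656, 27487895552)] :=
  covD_E kB1_eq (.n 2 (.n 0 (.n 2 (.l 1) (.l 1)) (.n 2 (.l 1) (.l 1))) (.n 2 (.l 1) (.l 1)))
    [(125986406400, 11453595648), (1264438476800, 164926849024), (82463686656, 27487895552)] rfl (by decide +kernel)
theorem B1_c0_t13 : CovD 1 gB1 [(125986406400, 11453595648), (1594292174848, 164926849024), (27487895552, 27487895552)] :=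
  covD_E kB1_eq (.n 2 (.n 2 (.n 2 (.n 2 (.l 1) (.l 1)) (.n 2 (.l 1) (.l 1))) (.n 0 (.n 2 (.l 1) (.l 1)) (.n 2 (.l 1) (.l 1)))) (.n 2 (.n 2 (.l 1) (.n 0 (.l 1) (.l 1))) (.n 2 (.l 1) (.l 1))))
    [(125986406400, 11453595648), (1594292174848, 164926849024), (27487895552, 27487895552)] rfl (by decide +kernel)
end

mutual
theorem B1_c0_t14 : CovD 1 gB1 [(125986406400, 11453595648), (1594292174848, 164926849024), (82463686656, 27487895552)] :=
  covD_E kB1_eq (.n 2 (.n 0 (.n 2 (.l 1) (.l 1)) (.n 2 (.l 1) (.l 1))) (.n 2 (.l 1) (.l 1)))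
    [(125986406400, 11453595648), (1594292174848, 164926849024), (82463686656, 27487895552)] rfl (by decide +kernel)
theorem D1_c0_t2 : CovD 1 gD1 [(103079215104, 11453595648), (1264438476800, 164926849024), (863554764800, 863554764800)] :=
  covD_E kD1_eq (.n 2 (.n 2 (.n 1 (.l 0) (.l 0)) (.n 2 (.l 0) (.l 0))) (.n 2 (.n 2 (.l 0) (.l 0)) (.n 2 (.l 0) (.n 0 (.l 0) (.l 0)))))
    [(103079215104, 11453595648), (1264438476800, 164926849024), (863554764800, 863554764800)] rfl (by decide +kernel)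
end

mutual
theorem D1_c0_t3 : CovD 1 gD1 [(103079215104, 11453595648), (1594292174848, 164926849024), (863554764800, 863554764800)] :=
  covD_E kD1_eq (.n 2 (.n 1 (.n 2 (.l 0) (.l 0)) (.n 2 (.l 0) (.l 0))) (.n 2 (.n 2 (.l 0) (.l 0)) (.n 0 (.n 1 (.l 0) (.l 0)) (.n 1 (.l 0) (.l 0)))))
    [(103079215104, 11453595648), (1594292174848, 164926849024), (863554764800, 863554764800)] rfl (by decide +kernel)
theorem D1_c0_t4 : CovD 1 gD1 [(125986406400, 11453595648), (1429365325824, 329853698048), (863554764800, 863554764800)] :=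
  covD_E kD1_eq (.n 1 (.n 2 (.n 1 (.n 2 (.l 0) (.l 0)) (.n 2 (.l 0) (.l 0))) (.n 2 (.n 1 (.l 0) (.l 0)) (.n 2 (.l 0) (.l 0)))) (.n 2 (.n 1 (.n 2 (.l 0) (.l 0)) (.n 2 (.l 0) (.l 0))) (.n 2 (.n 1 (.l 0) (.l 0)) (.n 2 (.l 0) (.l 0)))))
    [(125986406400, 11453595648), (1429365325824, 329853698048), (863554764800, 863554764800)] rfl (by decide +kernel)
end

mutual
theorem E1_c0_t3 : CovD 1 gE1 [(97352417280, 5726797824), (1264438476800, 164926849024), (863554764800, 863554764800)] :=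
  covD_E kE1_eq (.n 2 (.n 2 (.n 0 (.n 2 (.l 0) (.l 0)) (.n 2 (.l 0) (.l 0))) (.n 2 (.l 0) (.l 0))) (.n 2 (.n 2 (.l 0) (.l 0)) (.n 2 (.l 0) (.l 0))))
    [(97352417280, 5726797824), (1264438476800, 164926849024), (863554764800, 863554764800)] rfl (by decide +kernel)
theorem E1_c0_t4 : CovD 1 gE1 [(97352417280, 5726797824), (1594292174848, 164926849024), (863554764800, 863554764800)] :=
  covD_E kE1_eq (.n 2 (.n 2 (.n 1 (.n 2 (.l 0) (.l 0)) (.n 2 (.l 0) (.l 0))) (.n 2 (.n 0 (.l 0) (.l 0)) (.l 0))) (.n 2 (.n 2 (.l 0) (.l 0)) (.n 2 (.l 0) (.l 0))))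
    [(97352417280, 5726797824), (1594292174848, 164926849024), (863554764800, 863554764800)] rfl (by decide +kernel)
end

mutual
theorem E1_c0_t6 : CovD 1 gE1 [(108806012928, 5726797824), (1264438476800, 164926849024), (863554764800, 863554764800)] :=
  covD_E kE1_eq (.n 2 (.n 2 (.n 2 (.n 0 (.l 0) (.l 0)) (.l 0)) (.n 2 (.l 0) (.l 0))) (.n 2 (.n 2 (.l 0) (.l 0)) (.n 2 (.l 0) (.l 0))))
    [(108806012928, 5726797824), (1264438476800, 164926849024), (863554764800, 863554764800)] rfl (by decide +kernel)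
theorem E1_c0_t7 : CovD 1 gE1 [(108806012928, 5726797824), (1594292174848, 164926849024), (863554764800, 863554764800)] :=
  covD_E kE1_eq (.n 2 (.n 2 (.n 0 (.n 2 (.l 0) (.l 0)) (.n 2 (.l 0) (.l 0))) (.n 2 (.l 0) (.l 0))) (.n 2 (.n 2 (.l 0) (.l 0)) (.n 2 (.l 0) (.l 0))))
    [(108806012928, 5726797824), (1594292174848, 164926849024), (863554764800, 863554764800)] rfl (by decide +kernel)
end

mutual
theorem E1_c0_t10 : CovD 1 gE1 [(125986406400, 11453595648), (1264438476800, 164926849024), (431777382400, 431777382400)] :=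
  covD_E kE1_eq (.n 0 (.n 2 (.n 2 (.n 0 (.l 0) (.l 0)) (.l 0)) (.n 2 (.l 0) (.l 0))) (.n 2 (.n 2 (.n 0 (.l 0) (.l 0)) (.l 0)) (.n 2 (.l 0) (.l 0))))
    [(125986406400, 11453595648), (1264438476800, 164926849024), (431777382400, 431777382400)] rfl (by decide +kernel)
theorem E1_c0_t11 : CovD 1 gE1 [(125986406400, 11453595648), (1264438476800, 164926849024), (1295332147200, 431777382400)] :=
  covD_E kE1_eq (.n 2 (.n 0 (.n 2 (.l 0) (.l 0)) (.n 2 (.l 0) (.l 0))) (.n 2 (.n 0 (.l 0) (.l 0)) (.l 0)))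
    [(125986406400, 11453595648), (1264438476800, 164926849024), (1295332147200, 431777382400)] rfl (by decide +kernel)
end

mutual
theorem E1_c0_t13 : CovD 1 gE1 [(120259608576, 5726797824), (1594292174848, 164926849024), (863554764800, 863554764800)] :=
  covD_E kE1_eq (.n 2 (.n 2 (.n 0 (.n 2 (.l 0) (.l 0)) (.n 2 (.l 0) (.l 0))) (.n 2 (.l 0) (.l 0))) (.n 2 (.n 2 (.l 0) (.l 0)) (.n 2 (.l 0) (.l 0))))
    [(120259608576, 5726797824), (1594292174848, 164926849024), (863554764800, 863554764800)] rfl (by decide +kernel)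
theorem E1_c0_t14 : CovD 1 gE1 [(131713204224, 5726797824), (1594292174848, 164926849024), (863554764800, 863554764800)] :=
  covD_E kE1_eq (.n 2 (.n 2 (.n 0 (.n 2 (.l 0) (.l 0)) (.n 2 (.l 0) (.l 0))) (.n 2 (.n 0 (.l 0) (.l 0)) (.l 0))) (.n 2 (.n 2 (.l 0) (.l 0)) (.n 2 (.l 0) (.l 0))))
    [(131713204224, 5726797824), (1594292174848, 164926849024), (863554764800, 863554764800)] rfl (by decide +kernel)
end

theorem A1_c0_t4 : CovD 1 gA1 [(97352417280, 5726797824), (1264438476800, 164926849024), (2748779069440, 2748779069440)] :=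
  covD_split 2 (by decide +kernel) A1_c0_t5 A1_c0_t6

theorem A1_c0_t7 : CovD 1 gA1 [(97352417280, 5726797824), (1594292174848, 164926849024), (2748779069440, 2748779069440)] :=
  covD_split 2 (by decide +kernel) A1_c0_t8 A1_c0_t9

theorem A1_c0_t3 : CovD 1 gA1 [(97352417280, 5726797824), (1429365325824, 329853698048), (2748779069440, 2748779069440)] :=
  covD_split 1 (by decide +kernel) A1_c0_t4 A1_c0_t7

theorem A1_c0_t2 : CovD 1 gA1 [(97352417280, 5726797824), (1429365325824, 329853698048), (5497558138880, 5497558138880)] :=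
  covD_split 2 (by decide +kernel) A1_c0_t3 A1_c0_t10

theorem A1_c0_t13 : CovD 1 gA1 [(108806012928, 5726797824), (1264438476800, 164926849024), (2748779069440, 2748779069440)] :=
  covD_split 1 (by decide +kernel) A1_c0_t14 A1_c0_t15

theorem A1_c0_t12 : CovD 1 gA1 [(108806012928, 5726797824), (1429365325824, 329853698048), (2748779069440, 2748779069440)] :=
  covD_split 1 (by decide +kernel) A1_c0_t13 A1_c0_t16

theorem A1_c0_t11 : CovD 1 gA1 [(108806012928, 5726797824), (1429365325824, 329853698048), (5497558138880, 5497558138880)] :=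
  covD_split 2 (by decide +kernel) A1_c0_t12 A1_c0_t17

theorem A1_c0_t1 : CovD 1 gA1 [(103079215104, 11453595648), (1429365325824, 329853698048), (5497558138880, 5497558138880)] :=
  covD_split 0 (by decide +kernel) A1_c0_t2 A1_c0_t11

theorem A1_c0_t21 : CovD 1 gA1 [(125986406400, 11453595648), (1181975052288, 82463424512), (2748779069440, 2748779069440)] :=
  covD_split 2 (by decide +kernel) A1_c0_t22 A1_c0_t23

theorem A1_c0_t20 : CovD 1 gA1 [(125986406400, 11453595648), (1264438476800, 164926849024), (2748779069440, 2748779069440)] :=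
  covD_split 1 (by decide +kernel) A1_c0_t21 A1_c0_t24

theorem A1_c0_t19 : CovD 1 gA1 [(125986406400, 11453595648), (1264438476800, 164926849024), (5497558138880, 5497558138880)] :=
  covD_split 2 (by decide +kernel) A1_c0_t20 A1_c0_t25

theorem A1_c0_t27 : CovD 1 gA1 [(120259608576, 5726797824), (1594292174848, 164926849024), (5497558138880, 5497558138880)] :=
  covD_split 2 (by decide +kernel) A1_c0_t28 A1_c0_t29

theorem A1_c0_t30 : CovD 1 gA1 [(131713204224, 5726797824), (1594292174848, 164926849024), (5497558138880, 5497558138880)] :=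
  covD_split 2 (by decide +kernel) A1_c0_t31 A1_c0_t32

theorem A1_c0_t26 : CovD 1 gA1 [(125986406400, 11453595648), (1594292174848, 164926849024), (5497558138880, 5497558138880)] :=
  covD_split 0 (by decide +kernel) A1_c0_t27 A1_c0_t30

theorem A1_c0_t18 : CovD 1 gA1 [(125986406400, 11453595648), (1429365325824, 329853698048), (5497558138880, 5497558138880)] :=
  covD_split 1 (by decide +kernel) A1_c0_t19 A1_c0_t26

theorem A1_c0 : CovD 1 gA1 [(114532810752, 22907191296), (1429365325824, 329853698048), (5497558138880, 5497558138880)] :=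
  covD_split 0 (by decide +kernel) A1_c0_t1 A1_c0_t18

theorem B1_c0_t4 : CovD 1 gB1 [(103079215104, 11453595648), (1594292174848, 164926849024), (27487895552, 27487895552)] :=
  covD_split 0 (by decide +kernel) B1_c0_t5 B1_c0_t6

theorem B1_c0_t2 : CovD 1 gB1 [(103079215104, 11453595648), (1429365325824, 329853698048), (27487895552, 27487895552)] :=
  covD_split 1 (by decide +kernel) B1_c0_t3 B1_c0_t4

theorem B1_c0_t1 : CovD 1 gB1 [(103079215104, 11453595648), (1429365325824, 329853698048), (54975791104, 54975791104)] :=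
  covD_split 2 (by decide +kernel) B1_c0_t2 B1_c0_t7

theorem B1_c0_t9 : CovD 1 gB1 [(125986406400, 11453595648), (1264438476800, 164926849024), (54975791104, 54975791104)] :=
  covD_split 2 (by decide +kernel) B1_c0_t10 B1_c0_t11

theorem B1_c0_t12 : CovD 1 gB1 [(125986406400, 11453595648), (1594292174848, 164926849024), (54975791104, 54975791104)] :=
  covD_split 2 (by decide +kernel) B1_c0_t13 B1_c0_t14

theorem B1_c0_t8 : CovD 1 gB1 [(125986406400, 11453595648), (1429365325824, 329853698048), (54975791104, 54975791104)] :=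
  covD_split 1 (by decide +kernel) B1_c0_t9 B1_c0_t12

theorem B1_c0 : CovD 1 gB1 [(114532810752, 22907191296), (1429365325824, 329853698048), (54975791104, 54975791104)] :=
  covD_split 0 (by decide +kernel) B1_c0_t1 B1_c0_t8

theorem D1_c0_t1 : CovD 1 gD1 [(103079215104, 11453595648), (1429365325824, 329853698048), (863554764800, 863554764800)] :=
  covD_split 1 (by decide +kernel) D1_c0_t2 D1_c0_t3

theorem D1_c0 : CovD 1 gD1 [(114532810752, 22907191296), (1429365325824, 329853698048), (863554764800, 863554764800)] :=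
  covD_split 0 (by decide +kernel) D1_c0_t1 D1_c0_t4

theorem E1_c0_t2 : CovD 1 gE1 [(97352417280, 5726797824), (1429365325824, 329853698048), (863554764800, 863554764800)] :=
  covD_split 1 (by decide +kernel) E1_c0_t3 E1_c0_t4

theorem E1_c0_t5 : CovD 1 gE1 [(108806012928, 5726797824), (1429365325824, 329853698048), (863554764800, 863554764800)] :=
  covD_split 1 (by decide +kernel) E1_c0_t6 E1_c0_t7

theorem E1_c0_t1 : CovD 1 gE1 [(103079215104, 11453595648), (1429365325824, 329853698048), (863554764800, 863554764800)] :=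
  covD_split 0 (by decide +kernel) E1_c0_t2 E1_c0_t5

theorem E1_c0_t9 : CovD 1 gE1 [(125986406400, 11453595648), (1264438476800, 164926849024), (863554764800, 863554764800)] :=
  covD_split 2 (by decide +kernel) E1_c0_t10 E1_c0_t11

theorem E1_c0_t12 : CovD 1 gE1 [(125986406400, 11453595648), (1594292174848, 164926849024), (863554764800, 863554764800)] :=
  covD_split 0 (by decide +kernel) E1_c0_t13 E1_c0_t14

theorem E1_c0_t8 : CovD 1 gE1 [(125986406400, 11453595648), (1429365325824, 329853698048), (863554764800, 863554764800)] :=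
  covD_split 1 (by decide +kernel) E1_c0_t9 E1_c0_t12

theorem E1_c0 : CovD 1 gE1 [(114532810752, 22907191296), (1429365325824, 329853698048), (863554764800, 863554764800)] :=
  covD_split 0 (by decide +kernel) E1_c0_t1 E1_c0_t8

end Pool.Agent.helper14.NR.E8d
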