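import Pool.Agent.helper14.NR.E8d.PN5

/-!
Generated: certificates.
-/

namespace Pool.Agent.helper14.NR.E8d

open Pool.Agent.helper31.IA (Z)
open Pool.Agent.helper31.IX (Op XOps runX Cov CovD cov_split covD_split)
open Pool.Agent.helper31.IC (TD)
open Pool.Agent.helper63.RG (reloc)
open Pool.Agent.helper63.NF hiding TD
open Pool.Agent.helper14.CF (xE covD_E)
open Pool.Agent.helper14.NR (share)

mutual
theorem A5_c0_t5 : CovD 1 gA5 [(97352417280, 5726797824), (1181975052288, 82463424512), (2748779069440, 2748779069440)] :=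
  covD_E kA5_eq (.n 2 (.n 2 (.n 2 (.n 2 (.l 0) (.l 0)) (.n 2 (.l 0) (.l 0))) (.n 0 (.n 2 (.l 0) (.l 0)) (.n 2 (.l 0) (.l 0)))) (.n 1 (.n 2 (.n 2 (.l 0) (.l 0)) (.n 0 (.l 0) (.l 0))) (.n 2 (.n 2 (.l 0) (.l 0)) (.l 0))))
    [(97352417280, 5726797824), (1181975052288, 82463424512), (2748779069440, 2748779069440)] rfl (by decide +kernel)
theorem A5_c0_t6 : CovD 1 gA5 [(97352417280, 5726797824), (1181975052288, 82463424512), (8246337208320, 2748779069440)] :=
  covD_E kA5_eq (.n 0 (.n 2 (.n 2 (.l 0) (.l 0)) (.n 0 (.l 0) (.l 0))) (.n 2 (.n 2 (.l 0) (.l 0)) (.n 0 (.l 0) (.l 0))))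
    [(97352417280, 5726797824), (1181975052288, 82463424512), (8246337208320, 2748779069440)] rfl (by decide +kernel)
end

mutual
theorem A5_c0_t8 : CovD 1 gA5 [(97352417280, 5726797824), (1346901901312, 82463424512), (2748779069440, 2748779069440)] :=
  covD_E kA5_eq (.n 0 (.n 2 (.n 2 (.n 2 (.l 0) (.l 0)) (.n 2 (.l 0) (.l 0))) (.n 2 (.n 1 (.l 0) (.l 0)) (.l 0))) (.n 2 (.n 2 (.n 2 (.l 0) (.l 0)) (.n 2 (.l 0) (.l 0))) (.n 2 (.n 1 (.l 0) (.l 0)) (.l 0))))
    [(97352417280, 5726797824), (1346901901312, 82463424512), (2748779069440, 2748779069440)] rfl (by decide +kernel)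
theorem A5_c0_t9 : CovD 1 gA5 [(97352417280, 5726797824), (1346901901312, 82463424512), (8246337208320, 2748779069440)] :=
  covD_E kA5_eq (.n 2 (.n 0 (.n 2 (.l 0) (.l 0)) (.n 2 (.l 0) (.l 0))) (.n 2 (.n 0 (.l 0) (.l 0)) (.l 0)))
    [(97352417280, 5726797824), (1346901901312, 82463424512), (8246337208320, 2748779069440)] rfl (by decide +kernel)
end

mutual
theorem A5_c0_t12 : CovD 1 gA5 [(97352417280, 5726797824), (1511828750336, 82463424512), (2748779069440, 2748779069440)] :=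
  covD_E kA5_eq (.n 2 (.n 0 (.n 2 (.n 2 (.l 0) (.l 0)) (.n 2 (.l 0) (.l 0))) (.n 2 (.n 2 (.l 0) (.l 0)) (.n 2 (.l 0) (.l 0)))) (.n 2 (.n 2 (.n 0 (.l 0) (.l 0)) (.l 0)) (.n 0 (.l 0) (.l 0))))
    [(97352417280, 5726797824), (1511828750336, 82463424512), (2748779069440, 2748779069440)] rfl (by decide +kernel)
theorem A5_c0_t13 : CovD 1 gA5 [(97352417280, 5726797824), (1511828750336, 82463424512), (8246337208320, 2748779069440)] :=
  covD_E kA5_eq (.n 2 (.n 0 (.n 2 (.l 0) (.l 0)) (.n 2 (.l 0) (.l 0))) (.n 2 (.n 0 (.l 0) (.l 0)) (.l 0)))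
    [(97352417280, 5726797824), (1511828750336, 82463424512), (8246337208320, 2748779069440)] rfl (by decide +kernel)
end

mutual
theorem A5_c0_t15 : CovD 1 gA5 [(94489018368, 2863398912), (1676755599360, 82463424512), (5497558138880, 5497558138880)] :=
  covD_E kA5_eq (.n 2 (.n 2 (.n 2 (.n 2 (.l 0) (.l 0)) (.n 2 (.l 0) (.l 0))) (.n 2 (.n 0 (.l 0) (.l 0)) (.l 0))) (.n 2 (.n 2 (.l 0) (.l 0)) (.n 0 (.l 0) (.l 0))))
    [(94489018368, 2863398912), (1676755599360, 82463424512), (5497558138880, 5497558138880)] rfl (by decide +kernel)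
theorem A5_c0_t16 : CovD 1 gA5 [(100215816192, 2863398912), (1676755599360, 82463424512), (5497558138880, 5497558138880)] :=
  covD_E kA5_eq (.n 2 (.n 2 (.n 2 (.n 2 (.l 0) (.l 0)) (.n 2 (.l 0) (.l 0))) (.n 2 (.n 0 (.l 0) (.l 0)) (.l 0))) (.n 2 (.n 2 (.l 0) (.l 0)) (.n 0 (.l 0) (.l 0))))
    [(100215816192, 2863398912), (1676755599360, 82463424512), (5497558138880, 5497558138880)] rfl (by decide +kernel)
end

mutual
theorem A5_c0_t20 : CovD 1 gA5 [(108806012928, 5726797824), (1181975052288, 82463424512), (2748779069440, 2748779069440)] :=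
  covD_E kA5_eq (.n 2 (.n 2 (.n 2 (.n 2 (.l 0) (.l 0)) (.n 1 (.l 0) (.l 0))) (.n 0 (.n 2 (.l 0) (.l 0)) (.n 2 (.l 0) (.l 0)))) (.n 1 (.n 2 (.n 2 (.l 0) (.l 0)) (.l 0)) (.n 2 (.n 0 (.l 0) (.l 0)) (.l 0))))
    [(108806012928, 5726797824), (1181975052288, 82463424512), (2748779069440, 2748779069440)] rfl (by decide +kernel)
theorem A5_c0_t21 : CovD 1 gA5 [(108806012928, 5726797824), (1181975052288, 82463424512), (8246337208320, 2748779069440)] :=
  covD_E kA5_eq (.n 0 (.n 2 (.n 2 (.l 0) (.l 0)) (.n 1 (.l 0) (.l 0))) (.n 2 (.n 2 (.l 0) (.l 0)) (.n 1 (.l 0) (.l 0))))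
    [(108806012928, 5726797824), (1181975052288, 82463424512), (8246337208320, 2748779069440)] rfl (by decide +kernel)
end

mutual
theorem A5_c0_t23 : CovD 1 gA5 [(105942614016, 2863398912), (1346901901312, 82463424512), (5497558138880, 5497558138880)] :=
  covD_E kA5_eq (.n 2 (.n 2 (.n 2 (.n 2 (.l 0) (.l 0)) (.n 2 (.l 0) (.l 0))) (.n 2 (.n 1 (.l 0) (.l 0)) (.l 0))) (.n 2 (.n 2 (.l 0) (.l 0)) (.n 0 (.l 0) (.l 0))))
    [(105942614016, 2863398912), (1346901901312, 82463424512), (5497558138880, 5497558138880)] rfl (by decide +kernel)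
theorem A5_c0_t24 : CovD 1 gA5 [(111669411840, 2863398912), (1346901901312, 82463424512), (5497558138880, 5497558138880)] :=
  covD_E kA5_eq (.n 2 (.n 2 (.n 2 (.n 2 (.l 0) (.l 0)) (.n 2 (.l 0) (.l 0))) (.n 2 (.n 1 (.l 0) (.l 0)) (.l 0))) (.n 2 (.n 2 (.l 0) (.l 0)) (.n 1 (.l 0) (.l 0))))
    [(111669411840, 2863398912), (1346901901312, 82463424512), (5497558138880, 5497558138880)] rfl (by decide +kernel)
end

mutual
theorem A5_c0_t27 : CovD 1 gA5 [(105942614016, 2863398912), (1511828750336, 82463424512), (5497558138880, 5497558138880)] :=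
  covD_E kA5_eq (.n 2 (.n 2 (.n 2 (.n 2 (.l 0) (.l 0)) (.n 2 (.l 0) (.l 0))) (.n 2 (.n 0 (.l 0) (.l 0)) (.l 0))) (.n 2 (.n 2 (.l 0) (.l 0)) (.n 0 (.l 0) (.l 0))))
    [(105942614016, 2863398912), (1511828750336, 82463424512), (5497558138880, 5497558138880)] rfl (by decide +kernel)
theorem A5_c0_t28 : CovD 1 gA5 [(105942614016, 2863398912), (1676755599360, 82463424512), (5497558138880, 5497558138880)] :=
  covD_E kA5_eq (.n 2 (.n 2 (.n 2 (.n 2 (.l 0) (.l 0)) (.n 2 (.l 0) (.l 0))) (.n 2 (.n 0 (.l 0) (.l 0)) (.l 0))) (.n 2 (.n 2 (.l 0) (.l 0)) (.n 0 (.l 0) (.l 0))))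
    [(105942614016, 2863398912), (1676755599360, 82463424512), (5497558138880, 5497558138880)] rfl (by decide +kernel)
end

mutual
theorem A5_c0_t30 : CovD 1 gA5 [(111669411840, 2863398912), (1511828750336, 82463424512), (5497558138880, 5497558138880)] :=
  covD_E kA5_eq (.n 2 (.n 2 (.n 2 (.n 2 (.l 0) (.l 0)) (.n 2 (.l 0) (.l 0))) (.n 2 (.n 1 (.l 0) (.l 0)) (.l 0))) (.n 2 (.n 2 (.l 0) (.l 0)) (.n 1 (.l 0) (.l 0))))
    [(111669411840, 2863398912), (1511828750336, 82463424512), (5497558138880, 5497558138880)] rfl (by decide +kernel)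
theorem A5_c0_t31 : CovD 1 gA5 [(111669411840, 2863398912), (1676755599360, 82463424512), (5497558138880, 5497558138880)] :=
  covD_E kA5_eq (.n 2 (.n 2 (.n 2 (.n 2 (.l 0) (.l 0)) (.n 2 (.l 0) (.l 0))) (.n 2 (.n 0 (.l 0) (.l 0)) (.l 0))) (.n 2 (.n 2 (.l 0) (.l 0)) (.n 1 (.l 0) (.l 0))))
    [(111669411840, 2863398912), (1676755599360, 82463424512), (5497558138880, 5497558138880)] rfl (by decide +kernel)
end

mutual
theorem A5_c0_t36 : CovD 1 gA5 [(120259608576, 5726797824), (1140743340032, 41231712256), (5497558138880, 5497558138880)] :=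
  covD_E kA5_eq (.n 2 (.n 2 (.n 2 (.n 2 (.n 0 (.l 0) (.l 0)) (.l 0)) (.n 2 (.l 0) (.l 0))) (.n 2 (.n 2 (.l 0) (.l 0)) (.l 0))) (.n 2 (.n 2 (.l 0) (.l 0)) (.n 0 (.l 0) (.l 0))))
    [(120259608576, 5726797824), (1140743340032, 41231712256), (5497558138880, 5497558138880)] rfl (by decide +kernel)
theorem A5_c0_t37 : CovD 1 gA5 [(120259608576, 5726797824), (1223206764544, 41231712256), (5497558138880, 5497558138880)] :=
  covD_E kA5_eq (.n 2 (.n 2 (.n 2 (.n 2 (.l 0) (.l 0)) (.n 2 (.l 0) (.l 0))) (.n 2 (.n 0 (.l 0) (.l 0)) (.l 0))) (.n 2 (.n 2 (.l 0) (.l 0)) (.n 0 (.l 0) (.l 0))))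
    [(120259608576, 5726797824), (1223206764544, 41231712256), (5497558138880, 5497558138880)] rfl (by decide +kernel)
end

mutual
theorem A5_c0_t39 : CovD 1 gA5 [(120259608576, 5726797824), (1305670189056, 41231712256), (5497558138880, 5497558138880)] :=
  covD_E kA5_eq (.n 2 (.n 2 (.n 2 (.n 2 (.l 0) (.l 0)) (.n 2 (.l 0) (.l 0))) (.n 2 (.n 0 (.l 0) (.l 0)) (.l 0))) (.n 2 (.n 2 (.l 0) (.l 0)) (.n 0 (.l 0) (.l 0))))
    [(120259608576, 5726797824), (1305670189056, 41231712256), (5497558138880, 5497558138880)] rfl (by decide +kernel)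
theorem A5_c0_t40 : CovD 1 gA5 [(120259608576, 5726797824), (1388133613568, 41231712256), (5497558138880, 5497558138880)] :=
  covD_E kA5_eq (.n 2 (.n 2 (.n 2 (.n 2 (.l 0) (.l 0)) (.n 2 (.l 0) (.l 0))) (.n 2 (.n 0 (.l 0) (.l 0)) (.l 0))) (.n 2 (.n 2 (.l 0) (.l 0)) (.n 0 (.l 0) (.l 0))))
    [(120259608576, 5726797824), (1388133613568, 41231712256), (5497558138880, 5497558138880)] rfl (by decide +kernel)
end

mutual
theorem A5_c0_t43 : CovD 1 gA5 [(120259608576, 5726797824), (1470597038080, 41231712256), (5497558138880, 5497558138880)] :=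
  covD_E kA5_eq (.n 2 (.n 2 (.n 2 (.n 2 (.l 0) (.l 0)) (.n 2 (.l 0) (.l 0))) (.n 2 (.n 0 (.l 0) (.l 0)) (.l 0))) (.n 2 (.n 2 (.l 0) (.l 0)) (.n 0 (.l 0) (.l 0))))
    [(120259608576, 5726797824), (1470597038080, 41231712256), (5497558138880, 5497558138880)] rfl (by decide +kernel)
theorem A5_c0_t44 : CovD 1 gA5 [(120259608576, 5726797824), (1553060462592, 41231712256), (5497558138880, 5497558138880)] :=
  covD_E kA5_eq (.n 2 (.n 2 (.n 2 (.n 2 (.l 0) (.l 0)) (.n 2 (.l 0) (.l 0))) (.n 2 (.n 0 (.l 0) (.l 0)) (.l 0))) (.n 2 (.n 2 (.l 0) (.l 0)) (.n 0 (.l 0) (.l 0))))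
    [(120259608576, 5726797824), (1553060462592, 41231712256), (5497558138880, 5497558138880)] rfl (by decide +kernel)
end

mutual
theorem A5_c0_t46 : CovD 1 gA5 [(120259608576, 5726797824), (1635523887104, 41231712256), (5497558138880, 5497558138880)] :=
  covD_E kA5_eq (.n 2 (.n 2 (.n 2 (.n 2 (.l 0) (.l 0)) (.n 2 (.l 0) (.l 0))) (.n 2 (.n 0 (.l 0) (.l 0)) (.l 0))) (.n 2 (.n 2 (.l 0) (.l 0)) (.n 0 (.l 0) (.l 0))))
    [(120259608576, 5726797824), (1635523887104, 41231712256), (5497558138880, 5497558138880)] rfl (by decide +kernel)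
theorem A5_c0_t47 : CovD 1 gA5 [(120259608576, 5726797824), (1717987311616, 41231712256), (5497558138880, 5497558138880)] :=
  covD_E kA5_eq (.n 2 (.n 2 (.n 2 (.n 2 (.l 0) (.l 0)) (.n 2 (.l 0) (.l 0))) (.n 2 (.n 0 (.l 0) (.l 0)) (.l 0))) (.n 2 (.n 2 (.l 0) (.l 0)) (.n 0 (.l 0) (.l 0))))
    [(120259608576, 5726797824), (1717987311616, 41231712256), (5497558138880, 5497558138880)] rfl (by decide +kernel)
end

mutual
theorem A5_c0_t51 : CovD 1 gA5 [(131713204224, 5726797824), (1140743340032, 41231712256), (5497558138880, 5497558138880)] :=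
  covD_E kA5_eq (.n 2 (.n 2 (.n 2 (.n 0 (.n 2 (.l 0) (.l 0)) (.n 2 (.l 0) (.l 0))) (.n 2 (.l 0) (.l 0))) (.n 2 (.n 2 (.l 0) (.l 0)) (.n 0 (.l 0) (.l 0)))) (.n 2 (.n 2 (.l 0) (.l 0)) (.n 0 (.l 0) (.l 0))))
    [(131713204224, 5726797824), (1140743340032, 41231712256), (5497558138880, 5497558138880)] rfl (by decide +kernel)
theorem A5_c0_t52 : CovD 1 gA5 [(131713204224, 5726797824), (1223206764544, 41231712256), (5497558138880, 5497558138880)] :=
  covD_E kA5_eq (.n 2 (.n 2 (.n 2 (.n 2 (.l 0) (.l 0)) (.n 2 (.l 0) (.l 0))) (.n 2 (.n 2 (.l 0) (.l 0)) (.n 0 (.l 0) (.l 0)))) (.n 2 (.n 2 (.l 0) (.l 0)) (.n 0 (.l 0) (.l 0))))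
    [(131713204224, 5726797824), (1223206764544, 41231712256), (5497558138880, 5497558138880)] rfl (by decide +kernel)
end

mutual
theorem A5_c0_t54 : CovD 1 gA5 [(131713204224, 5726797824), (1305670189056, 41231712256), (5497558138880, 5497558138880)] :=
  covD_E kA5_eq (.n 2 (.n 2 (.n 2 (.n 2 (.l 0) (.l 0)) (.n 2 (.l 0) (.l 0))) (.n 0 (.n 2 (.l 0) (.l 0)) (.n 2 (.l 0) (.l 0)))) (.n 2 (.n 2 (.l 0) (.l 0)) (.n 0 (.l 0) (.l 0))))
    [(131713204224, 5726797824), (1305670189056, 41231712256), (5497558138880, 5497558138880)] rfl (by decide +kernel)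
theorem A5_c0_t55 : CovD 1 gA5 [(131713204224, 5726797824), (1388133613568, 41231712256), (5497558138880, 5497558138880)] :=
  covD_E kA5_eq (.n 2 (.n 2 (.n 2 (.n 2 (.l 0) (.l 0)) (.n 2 (.l 0) (.l 0))) (.n 2 (.n 0 (.l 0) (.l 0)) (.l 0))) (.n 2 (.n 2 (.l 0) (.l 0)) (.n 0 (.l 0) (.l 0))))
    [(131713204224, 5726797824), (1388133613568, 41231712256), (5497558138880, 5497558138880)] rfl (by decide +kernel)
end

mutual
theorem A5_c0_t58 : CovD 1 gA5 [(131713204224, 5726797824), (1470597038080, 41231712256), (5497558138880, 5497558138880)] :=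
  covD_E kA5_eq (.n 2 (.n 2 (.n 2 (.n 2 (.l 0) (.l 0)) (.n 2 (.l 0) (.l 0))) (.n 2 (.n 0 (.l 0) (.l 0)) (.l 0))) (.n 2 (.n 2 (.l 0) (.l 0)) (.n 0 (.l 0) (.l 0))))
    [(131713204224, 5726797824), (1470597038080, 41231712256), (5497558138880, 5497558138880)] rfl (by decide +kernel)
theorem A5_c0_t59 : CovD 1 gA5 [(131713204224, 5726797824), (1553060462592, 41231712256), (5497558138880, 5497558138880)] :=
  covD_E kA5_eq (.n 2 (.n 2 (.n 2 (.n 2 (.l 0) (.l 0)) (.n 2 (.l 0) (.l 0))) (.n 2 (.n 0 (.l 0) (.l 0)) (.l 0))) (.n 2 (.n 2 (.l 0) (.l 0)) (.n 0 (.l 0) (.l 0))))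
    [(131713204224, 5726797824), (1553060462592, 41231712256), (5497558138880, 5497558138880)] rfl (by decide +kernel)
end

mutual
theorem A5_c0_t61 : CovD 1 gA5 [(131713204224, 5726797824), (1635523887104, 41231712256), (5497558138880, 5497558138880)] :=
  covD_E kA5_eq (.n 2 (.n 2 (.n 2 (.n 2 (.l 0) (.l 0)) (.n 2 (.l 0) (.l 0))) (.n 2 (.n 0 (.l 0) (.l 0)) (.l 0))) (.n 2 (.n 2 (.l 0) (.l 0)) (.n 0 (.l 0) (.l 0))))
    [(131713204224, 5726797824), (1635523887104, 41231712256), (5497558138880, 5497558138880)] rfl (by decide +kernel)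
theorem A5_c0_t62 : CovD 1 gA5 [(131713204224, 5726797824), (1717987311616, 41231712256), (5497558138880, 5497558138880)] :=
  covD_E kA5_eq (.n 2 (.n 2 (.n 2 (.n 2 (.l 0) (.l 0)) (.n 2 (.l 0) (.l 0))) (.n 2 (.n 0 (.l 0) (.l 0)) (.l 0))) (.n 2 (.n 2 (.l 0) (.l 0)) (.n 0 (.l 0) (.l 0))))
    [(131713204224, 5726797824), (1717987311616, 41231712256), (5497558138880, 5497558138880)] rfl (by decide +kernel)
end

mutual
theorem B5_c0_t2 : CovD 1 gB5 [(97352417280, 5726797824), (1429365325824, 329853698048), (54975791104, 54975791104)] :=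
  covD_E kB5_eq (.n 1 (.n 1 (.n 2 (.n 2 (.l 0) (.l 0)) (.n 0 (.l 0) (.l 0))) (.n 0 (.n 2 (.l 0) (.l 0)) (.n 2 (.l 0) (.l 0)))) (.n 0 (.n 1 (.n 2 (.l 0) (.l 0)) (.n 2 (.l 0) (.l 0))) (.n 1 (.n 2 (.l 0) (.l 0)) (.n 2 (.l 0) (.l 0)))))
    [(97352417280, 5726797824), (1429365325824, 329853698048), (54975791104, 54975791104)] rfl (by decide +kernel)
theorem B5_c0_t3 : CovD 1 gB5 [(108806012928, 5726797824), (1429365325824, 329853698048), (54975791104, 54975791104)] :=
  covD_E kB5_eq (.n 0 (.n 1 (.n 1 (.n 2 (.l 0) (.l 0)) (.n 2 (.l 0) (.l 0))) (.n 1 (.n 2 (.l 0) (.l 0)) (.n 2 (.l 0) (.l 0)))) (.n 1 (.n 1 (.n 2 (.l 0) (.l 0)) (.n 2 (.l 0) (.l 0))) (.n 1 (.n 2 (.l 0) (.l 0)) (.n 2 (.l 0) (.l 0)))))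
    [(108806012928, 5726797824), (1429365325824, 329853698048), (54975791104, 54975791104)] rfl (by decide +kernel)
end

mutual
theorem B5_c0_t5 : CovD 1 gB5 [(120259608576, 5726797824), (1429365325824, 329853698048), (54975791104, 54975791104)] :=
  covD_E kB5_eq (.n 0 (.n 1 (.n 1 (.n 2 (.l 0) (.l 0)) (.n 2 (.l 0) (.l 0))) (.n 1 (.n 2 (.l 0) (.l 0)) (.n 2 (.l 0) (.l 0)))) (.n 1 (.n 1 (.n 2 (.l 0) (.l 0)) (.n 2 (.l 0) (.l 0))) (.n 1 (.n 2 (.l 0) (.l 0)) (.n 2 (.l 0) (.l 0)))))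
    [(120259608576, 5726797824), (1429365325824, 329853698048), (54975791104, 54975791104)] rfl (by decide +kernel)
theorem B5_c0_t6 : CovD 1 gB5 [(131713204224, 5726797824), (1429365325824, 329853698048), (54975791104, 54975791104)] :=
  covD_E kB5_eq (.n 0 (.n 1 (.n 1 (.n 2 (.l 0) (.l 0)) (.n 2 (.l 0) (.l 0))) (.n 1 (.n 2 (.l 0) (.l 0)) (.n 2 (.l 0) (.l 0)))) (.n 1 (.n 1 (.n 2 (.l 0) (.l 0)) (.n 2 (.l 0) (.l 0))) (.n 1 (.n 2 (.l 0) (.l 0)) (.n 2 (.l 0) (.l 0)))))
    [(131713204224, 5726797824), (1429365325824, 329853698048), (54975791104, 54975791104)] rfl (by decide +kernel)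
end

mutual
theorem D5_c0_t3 : CovD 1 gD5 [(97352417280, 5726797824), (1264438476800, 164926849024), (863554764800, 863554764800)] :=
  covD_E kD5_eq (.n 1 (.n 2 (.n 1 (.n 2 (.l 0) (.l 0)) (.n 2 (.l 0) (.l 0))) (.n 2 (.n 2 (.l 0) (.l 0)) (.n 2 (.l 1) (.l 1)))) (.n 2 (.n 2 (.n 1 (.l 0) (.l 0)) (.n 2 (.l 0) (.l 0))) (.n 2 (.n 2 (.l 0) (.l 1)) (.l 1))))
    [(97352417280, 5726797824), (1264438476800, 164926849024), (863554764800, 863554764800)] rfl (by decide +kernel)
theorem D5_c0_t4 : CovD 1 gD5 [(108806012928, 5726797824), (1264438476800, 164926849024), (863554764800, 863554764800)] :=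
  covD_E kD5_eq (.n 1 (.n 2 (.n 2 (.n 2 (.l 0) (.l 0)) (.n 2 (.l 0) (.l 0))) (.n 2 (.l 1) (.l 1))) (.n 2 (.n 2 (.n 0 (.l 1) (.l 1)) (.l 1)) (.n 2 (.l 1) (.l 1))))
    [(108806012928, 5726797824), (1264438476800, 164926849024), (863554764800, 863554764800)] rfl (by decide +kernel)
end

mutual
theorem D5_c0_t5 : CovD 1 gD5 [(103079215104, 11453595648), (1594292174848, 164926849024), (863554764800, 863554764800)] :=
  covD_E kD5_eq (.n 2 (.n 0 (.n 1 (.n 2 (.n 2 (.l 0) (.l 0)) (.n 2 (.l 0) (.l 0))) (.n 2 (.l 1) (.l 1))) (.n 2 (.l 1) (.l 1))) (.n 1 (.n 2 (.n 2 (.l 1) (.l 1)) (.l 1)) (.n 2 (.l 1) (.l 1))))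
    [(103079215104, 11453595648), (1594292174848, 164926849024), (863554764800, 863554764800)] rfl (by decide +kernel)
theorem D5_c0_t6 : CovD 1 gD5 [(125986406400, 11453595648), (1429365325824, 329853698048), (863554764800, 863554764800)] :=
  covD_E kD5_eq (.n 1 (.n 1 (.n 2 (.n 2 (.l 1) (.l 1)) (.n 2 (.l 1) (.l 1))) (.n 2 (.n 2 (.l 1) (.l 1)) (.n 2 (.l 1) (.l 1)))) (.n 2 (.n 2 (.l 1) (.l 1)) (.n 2 (.l 1) (.l 1))))
    [(125986406400, 11453595648), (1429365325824, 329853698048), (863554764800, 863554764800)] rfl (by decide +kernel)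
end

mutual
theorem E5_c0_t1 : CovD 1 gE5 [(103079215104, 11453595648), (1429365325824, 329853698048), (863554764800, 863554764800)] :=
  covD_E kE5_eq (.n 1 (.n 2 (.n 2 (.n 0 (.l 1) (.l 1)) (.l 1)) (.n 1 (.n 2 (.l 1) (.l 1)) (.n 2 (.l 1) (.l 1)))) (.n 2 (.n 2 (.n 2 (.l 1) (.l 1)) (.n 1 (.l 1) (.l 1))) (.n 2 (.l 1) (.n 0 (.l 1) (.l 1)))))
    [(103079215104, 11453595648), (1429365325824, 329853698048), (863554764800, 863554764800)] rfl (by decide +kernel)
theorem E5_c0_t2 : CovD 1 gE5 [(125986406400, 11453595648), (1429365325824, 329853698048), (863554764800, 863554764800)] :=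
  covD_E kE5_eq (.n 1 (.n 2 (.n 2 (.n 1 (.l 1) (.l 1)) (.l 1)) (.n 2 (.l 1) (.l 1))) (.n 2 (.n 2 (.n 2 (.l 1) (.l 1)) (.n 1 (.l 1) (.l 1))) (.n 2 (.l 1) (.l 1))))
    [(125986406400, 11453595648), (1429365325824, 329853698048), (863554764800, 863554764800)] rfl (by decide +kernel)
end

theorem A5_c0_t4 : CovD 1 gA5 [(97352417280, 5726797824), (1181975052288, 82463424512), (5497558138880, 5497558138880)] :=
  covD_split 2 (by decide +kernel) A5_c0_t5 A5_c0_t6

theorem A5_c0_t7 : CovD 1 gA5 [(97352417280, 5726797824), (1346901901312, 82463424512), (5497558138880, 5497558138880)] :=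
  covD_split 2 (by decide +kernel) A5_c0_t8 A5_c0_t9

theorem A5_c0_t3 : CovD 1 gA5 [(97352417280, 5726797824), (1264438476800, 164926849024), (5497558138880, 5497558138880)] :=
  covD_split 1 (by decide +kernel) A5_c0_t4 A5_c0_t7

theorem A5_c0_t11 : CovD 1 gA5 [(97352417280, 5726797824), (1511828750336, 82463424512), (5497558138880, 5497558138880)] :=
  covD_split 2 (by decide +kernel) A5_c0_t12 A5_c0_t13

theorem A5_c0_t14 : CovD 1 gA5 [(97352417280, 5726797824), (1676755599360, 82463424512), (5497558138880, 5497558138880)] :=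
  covD_split 0 (by decide +kernel) A5_c0_t15 A5_c0_t16

theorem A5_c0_t10 : CovD 1 gA5 [(97352417280, 5726797824), (1594292174848, 164926849024), (5497558138880, 5497558138880)] :=
  covD_split 1 (by decide +kernel) A5_c0_t11 A5_c0_t14

theorem A5_c0_t2 : CovD 1 gA5 [(97352417280, 5726797824), (1429365325824, 329853698048), (5497558138880, 5497558138880)] :=
  covD_split 1 (by decide +kernel) A5_c0_t3 A5_c0_t10

theorem A5_c0_t19 : CovD 1 gA5 [(108806012928, 5726797824), (1181975052288, 82463424512), (5497558138880, 5497558138880)] :=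
  covD_split 2 (by decide +kernel) A5_c0_t20 A5_c0_t21

theorem A5_c0_t22 : CovD 1 gA5 [(108806012928, 5726797824), (1346901901312, 82463424512), (5497558138880, 5497558138880)] :=
  covD_split 0 (by decide +kernel) A5_c0_t23 A5_c0_t24

theorem A5_c0_t18 : CovD 1 gA5 [(108806012928, 5726797824), (1264438476800, 164926849024), (5497558138880, 5497558138880)] :=
  covD_split 1 (by decide +kernel) A5_c0_t19 A5_c0_t22

theorem A5_c0_t26 : CovD 1 gA5 [(105942614016, 2863398912), (1594292174848, 164926849024), (5497558138880, 5497558138880)] :=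
  covD_split 1 (by decide +kernel) A5_c0_t27 A5_c0_t28

theorem A5_c0_t29 : CovD 1 gA5 [(111669411840, 2863398912), (1594292174848, 164926849024), (5497558138880, 5497558138880)] :=
  covD_split 1 (by decide +kernel) A5_c0_t30 A5_c0_t31

theorem A5_c0_t25 : CovD 1 gA5 [(108806012928, 5726797824), (1594292174848, 164926849024), (5497558138880, 5497558138880)] :=
  covD_split 0 (by decide +kernel) A5_c0_t26 A5_c0_t29

theorem A5_c0_t17 : CovD 1 gA5 [(108806012928, 5726797824), (1429365325824, 329853698048), (5497558138880, 5497558138880)] :=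
  covD_split 1 (by decide +kernel) A5_c0_t18 A5_c0_t25

theorem A5_c0_t1 : CovD 1 gA5 [(103079215104, 11453595648), (1429365325824, 329853698048), (5497558138880, 5497558138880)] :=
  covD_split 0 (by decide +kernel) A5_c0_t2 A5_c0_t17

theorem A5_c0_t35 : CovD 1 gA5 [(120259608576, 5726797824), (1181975052288, 82463424512), (5497558138880, 5497558138880)] :=
  covD_split 1 (by decide +kernel) A5_c0_t36 A5_c0_t37

theorem A5_c0_t38 : CovD 1 gA5 [(120259608576, 5726797824), (1346901901312, 82463424512), (5497558138880, 5497558138880)] :=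
  covD_split 1 (by decide +kernel) A5_c0_t39 A5_c0_t40

theorem A5_c0_t34 : CovD 1 gA5 [(120259608576, 5726797824), (1264438476800, 164926849024), (5497558138880, 5497558138880)] :=
  covD_split 1 (by decide +kernel) A5_c0_t35 A5_c0_t38

theorem A5_c0_t42 : CovD 1 gA5 [(120259608576, 5726797824), (1511828750336, 82463424512), (5497558138880, 5497558138880)] :=
  covD_split 1 (by decide +kernel) A5_c0_t43 A5_c0_t44

theorem A5_c0_t45 : CovD 1 gA5 [(120259608576, 5726797824), (1676755599360, 82463424512), (5497558138880, 5497558138880)] :=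
  covD_split 1 (by decide +kernel) A5_c0_t46 A5_c0_t47

theorem A5_c0_t41 : CovD 1 gA5 [(120259608576, 5726797824), (1594292174848, 164926849024), (5497558138880, 5497558138880)] :=
  covD_split 1 (by decide +kernel) A5_c0_t42 A5_c0_t45

theorem A5_c0_t33 : CovD 1 gA5 [(120259608576, 5726797824), (1429365325824, 329853698048), (5497558138880, 5497558138880)] :=
  covD_split 1 (by decide +kernel) A5_c0_t34 A5_c0_t41

theorem A5_c0_t50 : CovD 1 gA5 [(131713204224, 5726797824), (1181975052288, 82463424512), (5497558138880, 5497558138880)] :=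
  covD_split 1 (by decide +kernel) A5_c0_t51 A5_c0_t52

theorem A5_c0_t53 : CovD 1 gA5 [(131713204224, 5726797824), (1346901901312, 82463424512), (5497558138880, 5497558138880)] :=
  covD_split 1 (by decide +kernel) A5_c0_t54 A5_c0_t55

theorem A5_c0_t49 : CovD 1 gA5 [(131713204224, 5726797824), (1264438476800, 164926849024), (5497558138880, 5497558138880)] :=
  covD_split 1 (by decide +kernel) A5_c0_t50 A5_c0_t53

theorem A5_c0_t57 : CovD 1 gA5 [(131713204224, 5726797824), (1511828750336, 82463424512), (5497558138880, 5497558138880)] :=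
  covD_split 1 (by decide +kernel) A5_c0_t58 A5_c0_t59

theorem A5_c0_t60 : CovD 1 gA5 [(131713204224, 5726797824), (1676755599360, 82463424512), (5497558138880, 5497558138880)] :=
  covD_split 1 (by decide +kernel) A5_c0_t61 A5_c0_t62

theorem A5_c0_t56 : CovD 1 gA5 [(131713204224, 5726797824), (1594292174848, 164926849024), (5497558138880, 5497558138880)] :=
  covD_split 1 (by decide +kernel) A5_c0_t57 A5_c0_t60

theorem A5_c0_t48 : CovD 1 gA5 [(131713204224, 5726797824), (1429365325824, 329853698048), (5497558138880, 5497558138880)] :=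
  covD_split 1 (by decide +kernel) A5_c0_t49 A5_c0_t56

theorem A5_c0_t32 : CovD 1 gA5 [(125986406400, 11453595648), (1429365325824, 329853698048), (5497558138880, 5497558138880)] :=
  covD_split 0 (by decide +kernel) A5_c0_t33 A5_c0_t48

theorem A5_c0 : CovD 1 gA5 [(114532810752, 22907191296), (1429365325824, 329853698048), (5497558138880, 5497558138880)] :=
  covD_split 0 (by decide +kernel) A5_c0_t1 A5_c0_t32

theorem B5_c0_t1 : CovD 1 gB5 [(103079215104, 11453595648), (1429365325824, 329853698048), (54975791104, 54975791104)] :=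
  covD_split 0 (by decide +kernel) B5_c0_t2 B5_c0_t3

theorem B5_c0_t4 : CovD 1 gB5 [(125986406400, 11453595648), (1429365325824, 329853698048), (54975791104, 54975791104)] :=
  covD_split 0 (by decide +kernel) B5_c0_t5 B5_c0_t6

theorem B5_c0 : CovD 1 gB5 [(114532810752, 22907191296), (1429365325824, 329853698048), (54975791104, 54975791104)] :=
  covD_split 0 (by decide +kernel) B5_c0_t1 B5_c0_t4

theorem D5_c0_t2 : CovD 1 gD5 [(103079215104, 11453595648), (1264438476800, 164926849024), (863554764800, 863554764800)] :=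
  covD_split 0 (by decide +kernel) D5_c0_t3 D5_c0_t4

theorem D5_c0_t1 : CovD 1 gD5 [(103079215104, 11453595648), (1429365325824, 329853698048), (863554764800, 863554764800)] :=
  covD_split 1 (by decide +kernel) D5_c0_t2 D5_c0_t5

theorem D5_c0 : CovD 1 gD5 [(114532810752, 22907191296), (1429365325824, 329853698048), (863554764800, 863554764800)] :=
  covD_split 0 (by decide +kernel) D5_c0_t1 D5_c0_t6

theorem E5_c0 : CovD 1 gE5 [(114532810752, 22907191296), (1429365325824, 329853698048), (863554764800, 863554764800)] :=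
  covD_split 0 (by decide +kernel) E5_c0_t1 E5_c0_t2

end Pool.Agent.helper14.NR.E8d
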