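import Pool.Agent.helper63.NF.Cert

/-!
Generated: table E8d.
-/

namespace Pool.Agent.helper14.NR.E8d

open Pool.Agent.helper63.NF

def tab : TD where
  strip := false
  bm := none
  ec := 114621939712
  bc := 1430224109568
  H := [[[-69163696192, 210362483392, -8050547200, 6581908544], [-1033938181376, -407646589632, -115090158208], [1770118295296, -1051864194368], [4524674336128]], [[21856991104, -19280524224, 1905827584], [85829530816, 29812354432], [-176056755328]], [[-3339464384, 760515200], [-7953865536]], [[235131968]], [[-8272832]]]
  pol := some ⟨-3276523175936, -15719580303360, 5872294035456, 31362867265536, [[-441658556544, -1012598805504], [3031675305216, 0]], [[6062267114496, -4336817720576], [59867993224768, 0]]⟩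
  a := [[[541620371456, -391367819264, 506719043584, 3297334394880], [1158138888192, 9409778876416]], [[88559386624, 461635584, 1310720, -196608], [5760417792, 4462477312]], [[89162055680, 929628160, 5308416, -917504], [11600527360, 9055240192]], [[86776348672, -904462336, 5177344, -917504], [-11285364736, -8542289920]], [[87366631424, -455344128, 1310720, -196608], [-5681643520, -4334288896]], [[87960911872, 0, 0, 0], [0, 0]]]
  j := [5085241278464, 1786706395136, 3573412790272, 5222680231936, 7009386627072, 8796093022208]
  c := [879662989312, 879662989312, 659814350848, 549755813888, 439697276928, 329907175424]
  M := [[[[1184257081344, 204947652608, 64480280576], [1938856214528, 3674370211840], [18796824100864]], [[402412601344, -8245084160], [5290533191680]], [[126338203648, -42969268224], [-2794686054400]], [[-231648591872]], [[152960696320]], [[-74458202112]]], [[[1177958285312, 156244312064, 72157822976], [2095018737664]], [[78013857792, 6356860928], [623236546560]], [[-3717595136]], [[230227968]]], [[[1181418127360, 158963990528, 61062840320], [2018395291648]], [[76187303936, 4374069248], [589878198272]], [[-3267035136]], [[172097536]]], [[[1184485933056, 157692526592, 59139686400], [2074570653696]], [[74496081920, 4016701440], [573334224896]],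 [[-2927624192]], [[145293312]]], [[[1187080241152, 159674531840, 62089789440], [2036791443456]], [[72710815744, 3242000384], [585174876160]], [[-2557083648]], [[120717312]]], [[[1158258556928, 187446132736, 55316905984], [140427788288]], [[79928229888, -4228775936], [1046942449664]], [[-2551906304]], [[122093568]]]]
  l0 := [[[3664049971520, -188628992064, -313798938048], [-509259384064, -5923878887040], [8704089538112]], [[62558002176, -423217885504, 356933170688], [-16276961905984, 4818924592000], [-35097353918912]], [[-107646601600, 1158361653248, -297168108992], [5783118740096, -5101451879424], [-8614358491072]], [[435110079104, -1629656830016], [-17803978848320]], [[-621070601088, 1223263636736], [8542891430208]], [[-94471731456, -525508566592], [-2034246314496]], [[743195062720]], [[-1189197133760]], [[848337310272]], [[-440287582848]]]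
  q0 := [[611501134656, 487024056448, -23201353664, -14232943232], [5533306808448, 3170123368576, -974898292032], [-12154972792704, -4315095804672], [156114729369920]]
  t := [[[2031112749056, 335972401152, -351852036096, -675299983360], [6091531485184, 10871409934336]], [[1426404081664, 647659257856, -624652320768, 419058024448], [10055223672832, 7547424014336]], [[1419858083840, 601711902720, -883524567040, -391179468800], [9858196701184, 3316769030144]], [[1304588582912, 438811230208, -977712316416, -201643130880], [7924089028608, 137075490816]], [[1167502016512, 455768932352, -803711156224, -1020510404608], [6193758928896, 1682047303680]], [[1129141960704, 481668562944, -508293021696, -540037677056], [7167711707136, 5799777075200]]]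
  y := [20912195764224, 24435142688768, 20700668624896, 14180908269568, 8755290832896, 4964982194176]
  sc := [0, 0, 0, 0, 0, 0]
  L := [(0, 2), (0, 3), (1, 1), (1, 2), (2, 0), (2, 1), (3, 0)]
  Lt := [(0, 2), (0, 3), (1, 1)]
  far := 1
  x2 := 10775213113344
  B1 := 659706347520
  C2 := 1327712154624
  f1 := 769658138624
  f2 := 0
  f3 := 0
  is1 := 8796093022208
  s1 := 137438953472

end Pool.Agent.helper14.NR.E8d
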